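import Pool.Agent.H196.CnedTD
import Pool.Graph.R_seed8.TH571.J141

/-!
# Every closed set which is not CNED contains a Cantor set which is not CNED

The theorem `result` answers question Q1 of the problem in the positive, for every `n ≥ 2`.

How the definitions match the problem file: a curve is a function continuous on `[0, 1]` (every
compact interval is reparametrized to `[0, 1]`), its trace is the image of `[0, 1]`, a curve on a
compact interval is locally rectifiable iff it has finite length, `lineIntegral` is the integral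
with respect to arc length, `modulus` is the conformal modulus, `joining F₁ F₂` is `Γ(F₁, F₂)`,
`curvesSigma E` is `F_σ(E)` and `IsCNED` is the CNED property.
-/

set_option autoImplicit false

open MeasureTheory Set Filter Topology Metric
open scoped ENNReal

namespace Pool.Agent.Results.MP_d4663a_an.NonCnedCantorSubset

/-- Euclidean `n`-space. -/
abbrev Eucl (n : ℕ) := EuclideanSpace ℝ (Fin n)

/-- The path `γ : [0, 1] → ℝⁿ` is rectifiable: it has finite length. -/
def IsRectifiable {n : ℕ} (γ : ℝ → Eucl n) : Prop := eVariationOn γ (Icc 0 1) ≠ ⊤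

/-- The line integral `∫_γ ρ ds` over a rectifiable path `γ : [0, 1] → ℝⁿ`: the integral of
`ρ ∘ γ_s` over `[0, length of γ]`, where `γ_s` is the parametrization of `γ` by arc length. -/
noncomputable def lineIntegral {n : ℕ} (ρ : Eucl n → ℝ≥0∞) (γ : ℝ → Eucl n) : ℝ≥0∞ :=
  ∫⁻ s in Icc 0 (eVariationOn γ (Icc 0 1)).toReal, ρ (naturalParameterization γ (Icc 0 1) 0 s)

/-- The conformal `n`-modulus of a family `Γ` of paths `[0, 1] → ℝⁿ`: the infimum of `∫ ρⁿ` over
the Borel functions `ρ : ℝⁿ → [0, ∞]` with `∫_γ ρ ds ≥ 1` for all rectifiable `γ` in `Γ`. -/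
noncomputable def modulus {n : ℕ} (Γ : Set (ℝ → Eucl n)) : ℝ≥0∞ :=
  ⨅ (ρ : Eucl n → ℝ≥0∞) (_ : Measurable ρ)
    (_ : ∀ γ ∈ Γ, IsRectifiable γ → 1 ≤ lineIntegral ρ γ), ∫⁻ x, ρ x ^ n

/-- The family `Γ(F₁, F₂)` of the paths (functions continuous on `[0, 1]`) from `F₁` to `F₂`. -/
def joining {n : ℕ} (F₁ F₂ : Set (Eucl n)) : Set (ℝ → Eucl n) :=
  {γ | ContinuousOn γ (Icc 0 1) ∧ γ 0 ∈ F₁ ∧ γ 1 ∈ F₂}

/-- The family `F_σ(E)` of the paths whose trace meets `E` in at most countably many points. -/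
def curvesSigma {n : ℕ} (E : Set (Eucl n)) : Set (ℝ → Eucl n) :=
  {γ | (γ '' Icc 0 1 ∩ E).Countable}

/-- `E` is CNED: for any two disjoint continua (nonempty compact connected sets) `F₁`, `F₂` the
modulus of `Γ(F₁, F₂)` equals the modulus of `Γ(F₁, F₂) ∩ F_σ(E)`. -/
def IsCNED {n : ℕ} (E : Set (Eucl n)) : Prop :=
  ∀ F₁ F₂ : Set (Eucl n), IsCompact F₁ → IsConnected F₁ → IsCompact F₂ → IsConnected F₂ →
    Disjoint F₁ F₂ → modulus (joining F₁ F₂) = modulus (joining F₁ F₂ ∩ curvesSigma E)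

section aux

open Pool.Agent.TH221

variable {n : ℕ}

lemma adm_iff {E F₁ F₂ : Set (Eucl n)} {ρ : Eucl n → ℝ≥0∞} :
    Adm E F₁ F₂ ρ ↔ Measurable ρ ∧
      ∀ γ ∈ joining F₁ F₂ ∩ curvesSigma E, IsRectifiable γ → 1 ≤ lineIntegral ρ γ := by
  constructor
  · rintro ⟨hm, h⟩
    refine ⟨hm, ?_⟩
    rintro c ⟨⟨hc, h0, h1⟩, hE⟩ hv
    obtain ⟨γ, ℓ, hγ, hℓ, hγ0, hγ1, him, hcost⟩ := bridge_to_crv hc hv
    have hcrv : Crv univ E (c 0) (c 1) γ ℓ :=
      ⟨hγ, hℓ, hγ0, hγ1, fun _ _ => mem_univ _, by rw [him]; exact hE⟩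
    have := h _ h0 _ h1 γ ℓ hcrv
    rw [← hcost ρ] at this
    exact this
  · rintro ⟨hm, h⟩
    refine ⟨hm, fun x hx y hy γ ℓ hγ => ?_⟩
    obtain ⟨c, hc, h0, h1, hv, him, hcost⟩ := bridge_of_crv hγ
    refine le_trans (h c ⟨⟨hc, by rwa [h0], by rwa [h1]⟩, ?_⟩ hv) (hcost ρ hm)
    change (c '' Icc 0 1 ∩ E).Countable
    rw [him]
    exact hγ.cnt

lemma modulus_sigma (E F₁ F₂ : Set (Eucl n)) :
    modulus (joining F₁ F₂ ∩ curvesSigma E) =
      ⨅ (ρ : Eucl n → ℝ≥0∞) (_ : Adm E F₁ F₂ ρ), ∫⁻ x, ρ x ^ n := by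
  unfold modulus
  refine le_antisymm ?_ ?_
  · refine le_iInf₂ fun ρ hρ => ?_
    obtain ⟨h1, h2⟩ := adm_iff.1 hρ
    exact iInf_le_of_le ρ (iInf_le_of_le h1 (iInf_le _ h2))
  · refine le_iInf fun ρ => le_iInf₂ fun h1 h2 => ?_
    exact iInf₂_le ρ (adm_iff.2 ⟨h1, h2⟩)

lemma modulus_joining (F₁ F₂ : Set (Eucl n)) :
    modulus (joining F₁ F₂) =
      ⨅ (ρ : Eucl n → ℝ≥0∞) (_ : Adm ∅ F₁ F₂ ρ), ∫⁻ x, ρ x ^ n := by
  rw [← modulus_sigma]
  congr 1
  ext γ
  simp [curvesSigma]

/-- closed CNED sets are removable for continuous `W^{1,n}` functions -/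
lemma removable_of_cned (hn : 2 ≤ n) {E : Set (Eucl n)} (hE : IsClosed E) (hcned : IsCNED E)
    (u : Eucl n → ℝ) (hu : Continuous u) (hW : InW Eᶜ u) : InW univ u := by
  refine removable_of_minProp hn hE ?_ hu hW
  intro x r R hr hR ρ hρ
  have hrank : 1 < Module.rank ℝ (Eucl n) := by
    rw [← Module.finrank_eq_rank, finrank_euclideanSpace_fin]
    exact_mod_cast (by omega : 1 < n)
  have h1 := hcned (sphere x r) (sphere x R) (isCompact_sphere x r)
    (isConnected_sphere hrank x hr.le) (isCompact_sphere x R)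
    (isConnected_sphere hrank x (hr.trans hR).le) (by
      rw [Set.disjoint_left]
      intro y hy hy'
      rw [mem_sphere] at hy hy'
      linarith)
  rw [modulus_joining, modulus_sigma] at h1
  have h2 : ringE x r R ≤
      ⨅ (ρ : Eucl n → ℝ≥0∞) (_ : Adm ∅ (sphere x r) (sphere x R) ρ), ∫⁻ x, ρ x ^ n := by
    refine le_iInf₂ fun σ hσ => ?_
    refine ring_energy hn x hr hR hσ.1 fun e he => ?_
    have hc : Crv univ ∅ (x + r • e) (x + R • e) (fun t => x + (t + r) • e) (R - r) := by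
      refine ⟨lip_of_le fun s t hst => ?_, by linarith, by simp, by simp,
        fun _ _ => mem_univ _, by simp⟩
      rw [dist_add_left, dist_eq_norm, ← sub_smul, norm_smul, he, mul_one, Real.norm_eq_abs,
        abs_sub_comm, abs_of_nonneg (by linarith)]
      linarith
    have h3 := hσ.2 (x + r • e) (by simp [norm_smul, he, abs_of_pos hr]) (x + R • e)
      (by simp [norm_smul, he, abs_of_pos (hr.trans hR)]) _ _ hc
    have h4 := cost_shift (ρ := σ) (fun t => x + t • e) 0 (R - r) r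
    rw [zero_add, sub_add_cancel] at h4
    rw [h4] at h3
    exact h3
  calc ringE x r R ≤ _ := h2
    _ = _ := h1
    _ ≤ ∫⁻ y, ρ y ^ n := iInf₂_le ρ hρ

/-- countable sets do not matter -/
lemma cned_union_countable {V D : Set (Eucl n)} (hV : V.Countable) (hD : IsCNED D) :
    IsCNED (V ∪ D) := by
  have : curvesSigma (V ∪ D) = curvesSigma D := by
    ext γ
    simp only [curvesSigma, Set.mem_ofPred_eq, inter_union_distrib_left]
    rw [countable_union]
    exact ⟨fun h => h.2, fun h => ⟨hV.mono inter_subset_right, h⟩⟩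
  intro F₁ F₂ h1 h2 h3 h4 h5
  rw [this]
  exact hD F₁ F₂ h1 h2 h3 h4 h5

end aux

/-- **Full answer to Q1 (yes), in a stronger form.** For every `n ≥ 2`, every closed set
`E ⊆ ℝⁿ` which is not CNED contains a Cantor set `K` (nonempty, compact, perfect, totally
disconnected) which is not CNED. -/
theorem result : ∀ n : ℕ, 2 ≤ n → ∀ E : Set (Eucl n), IsClosed E → ¬ IsCNED E →
    ∃ K ⊆ E, K.Nonempty ∧ IsCompact K ∧ Perfect K ∧ IsTotallyDisconnected K ∧ ¬ IsCNED K := by
  intro n hn E hE hnc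
  by_contra hcon
  push Not at hcon
  -- all compact totally disconnected subsets are CNED
  have htd : ∀ K ⊆ E, IsCompact K → IsTotallyDisconnected K → IsCNED K := by
    intro K hKE hK hKtd
    obtain ⟨V, D, hV, hD, hVD⟩ := exists_countable_union_perfect_of_isClosed hK.isClosed
    have hDK : D ⊆ K := by rw [hVD]; exact subset_union_right
    rw [hVD]
    refine cned_union_countable hV ?_
    rcases D.eq_empty_or_nonempty with h0 | h0
    · intro F₁ F₂ _ _ _ _ _
      rw [h0]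
      congr 1
      ext γ
      simp [curvesSigma]
    · exact hcon D (hDK.trans hKE) h0 (hK.of_isClosed_subset hD.closed hDK) hD
        (fun A hA => hKtd A (hA.trans hDK))
  have hrem : ∀ K ⊆ E, IsCompact K → IsTotallyDisconnected K → ∀ u : Eucl n → ℝ,
      Continuous u → Pool.Agent.TH221.InW Kᶜ u → Pool.Agent.TH221.InW univ u :=
    fun K hKE hK hKtd u hu hW => removable_of_cned hn hK.isClosed (htd K hKE hK hKtd) u hu hW
  have hE0 : volume E = 0 := by
    by_contra hpos
    obtain ⟨K, hKE, hK, hKtd, hK0⟩ := Pool.Agent.H196.exists_td_pos hE hpos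
    exact hK0 (Pool.Agent.TH221.volume_zero_of_removable hn hK.isClosed (hrem K hKE hK hKtd))
  refine hnc fun F₁ F₂ hF₁ hF₁c hF₂ _ _ => ?_
  rw [modulus_joining, modulus_sigma]
  refine le_antisymm (le_iInf₂ fun ρ hρ => ?_) (le_iInf₂ fun ρ hρ => ?_)
  · exact Pool.Agent.H196.td_imp hn hE hE0 hrem hF₁ hF₂ hF₁c.nonempty hρ
  · refine iInf₂_le ρ ⟨hρ.1, fun x hx y hy γ ℓ hγ => hρ.2 x hx y hy γ ℓ ?_⟩
    exact hγ.mono (subset_refl _) (empty_subset _)

end Pool.Agent.Results.MP_d4663a_an.NonCnedCantorSubset
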